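import Mathlib
import Pool.Agent.Lib.MP_5f1228_co.Ex.Final

/-!
# MP_5f1228_co, Q1 for all `n`: blowing up

The covering property for large `n` implies it for all `n`: replace every vertex by a clique with
`T` vertices.
-/

set_option autoImplicit false

namespace Pool.Agent.MP5f1228BU

open Finset

variable {V : Type}

/-- every vertex is replaced by a clique with `T` vertices -/
def blow (G : SimpleGraph V) (T : ℕ) : SimpleGraph (V × Fin T) where
  Adj u v := G.Adj u.1 v.1 ∨ (u.1 = v.1 ∧ u.2 ≠ v.2)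
  symm := ⟨by
    rintro u v (h | ⟨h1, h2⟩)
    · exact Or.inl h.symm
    · exact Or.inr ⟨h1.symm, h2.symm⟩⟩
  loopless := ⟨by
    rintro u (h | ⟨-, h2⟩)
    · exact G.loopless.irrefl _ h
    · exact h2 rfl⟩

theorem degree_blow [Fintype V] [DecidableEq V] (G : SimpleGraph V) [DecidableRel G.Adj] (T : ℕ)
    (u : V × Fin T) [Fintype ((blow G T).neighborSet u)] :
    G.degree u.1 * T ≤ (blow G T).degree u := by
  classical
  have h1 : (G.neighborFinset u.1 ×ˢ (univ : Finset (Fin T))) ⊆ (blow G T).neighborFinset u := by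
    intro v hv
    rw [mem_product, SimpleGraph.mem_neighborFinset] at hv
    rw [SimpleGraph.mem_neighborFinset]
    exact Or.inl hv.1
  have h2 := card_le_card h1
  rw [card_product, card_univ, Fintype.card_fin] at h2
  exact h2

theorem cover_all (r : ℕ) (hr : 1 ≤ r) (V : Type) [Fintype V] [DecidableEq V] [Nonempty V]
    (G : SimpleGraph V) [DecidableRel G.Adj]
    (hδ : ((1 : ℝ) - (1 / 2 : ℝ) ^ r) * (Fintype.card V : ℝ) ≤ (G.minDegree : ℝ))
    (c : Sym2 V → Fin r) : ∃ f : Fin r → V, ∀ x : V, ∃ i : Fin r,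
      (SimpleGraph.fromEdgeSet {e : Sym2 V | e ∈ G.edgeSet ∧ c e = i}).Reachable (f i) x := by
  classical
  obtain ⟨n₀, hn₀⟩ := MP5f1228.Ex.tp_exact r hr
  obtain ⟨H, hH1, hH2, hH3⟩ := hn₀ (V × Fin (n₀ + 1)) (blow G (n₀ + 1))
    (fun e => c (e.map Prod.fst)) (by
      rw [Fintype.card_prod, Fintype.card_fin]
      have : 1 ≤ Fintype.card V := Fintype.card_pos
      nlinarith) (fun v => by
      rw [Fintype.card_prod, Fintype.card_fin]
      have h1 := degree_blow G (n₀ + 1) v
      have h2 := G.minDegree_le_degree v.1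
      have h3 : ((G.minDegree : ℕ) : ℝ) * ((n₀ + 1 : ℕ) : ℝ) ≤
          (((blow G (n₀ + 1)).degree v : ℕ) : ℝ) := by
        exact_mod_cast (Nat.mul_le_mul_right _ h2).trans h1
      have h4 : (0 : ℝ) < ((n₀ + 1 : ℕ) : ℝ) := by positivity
      have h5 := mul_le_mul_of_nonneg_right hδ h4.le
      have h6 : (1 - 1 / 2 ^ r : ℝ) = (1 : ℝ) - (1 / 2 : ℝ) ^ r := by
        rw [one_div_pow]
      rw [h6]
      push_cast at h3 h5 ⊢
      linarith)
  have key : ∀ i, ∃ w : V, ∀ z ∈ (H i).verts,
      (SimpleGraph.fromEdgeSet {e : Sym2 V | e ∈ G.edgeSet ∧ c e = i}).Reachable w z.1 := by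
    intro i
    by_cases hne : (H i).verts.Nonempty
    · obtain ⟨z, hz⟩ := hne
      have hT : (H i).coe.IsTree := by
        rcases hH1 i with h | h
        · rw [h] at hz
          exact absurd hz (by simp)
        · exact h
      refine ⟨z.1, fun z' hz' => ?_⟩
      have h1 : (H i).coe.Reachable ⟨z, hz⟩ ⟨z', hz'⟩ := hT.connected.preconnected _ _
      rw [SimpleGraph.reachable_iff_reflTransGen] at h1
      have h2 : ∀ y : (H i).verts, Relation.ReflTransGen (H i).coe.Adj ⟨z, hz⟩ y →
          (SimpleGraph.fromEdgeSet {e : Sym2 V | e ∈ G.edgeSet ∧ c e = i}).Reachable z.1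
            (y : V × Fin (n₀ + 1)).1 := by
        intro y hy
        induction hy with
        | refl => exact SimpleGraph.Reachable.refl _
        | tail _ hab ih =>
          rename_i b d _
          refine ih.trans ?_
          have h3 : (H i).Adj b d := hab
          have h4 := hH2 i _ _ h3
          rcases (H i).adj_sub h3 with h5 | ⟨h5, -⟩
          · refine SimpleGraph.Adj.reachable ?_
            rw [SimpleGraph.fromEdgeSet_adj]
            refine ⟨⟨h5, ?_⟩, h5.ne⟩
            simpa using h4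
          · rw [h5]
      exact h2 _ h1
    · obtain ⟨w⟩ := ‹Nonempty V›
      exact ⟨w, fun z hz => absurd ⟨z, hz⟩ hne⟩
  choose f hf using key
  refine ⟨f, fun x => ?_⟩
  obtain ⟨i, hi, -⟩ := hH3 (x, 0)
  exact ⟨i, hf i _ hi⟩

end Pool.Agent.MP5f1228BU
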